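import Mathlib
import Pool.Agent.L0h11.FP.Stm

set_option autoImplicit false

/-!
# Project FP, module PM: the matrix of the conditions
-/

namespace Pool.Agent.L0h66.FP

open Polynomial Finset Pool.Agent.L0h11.FP

variable {R : Type} [CommRing R]

/-- the coefficients of `pol D v` -/
theorem coeff_pol (D : ℕ) (v : Idx D → R) (i j : ℕ) :
    ((pol D v).coeff j).coeff i = if h : i + j < D then
      v ⟨(⟨i, by omega⟩, ⟨j, by omega⟩), h⟩ else 0 := by
  classical
  have h1 : ((pol D v).coeff j).coeff i =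
      ∑ p : Idx D, if j = (p.1.2 : ℕ) then (if i = (p.1.1 : ℕ) then v p else 0) else 0 := by
    unfold pol
    rw [finsetSum_coeff, finsetSum_coeff]
    refine Finset.sum_congr rfl fun p _ => ?_
    rw [coeff_C_mul_X_pow]
    split_ifs with h1 h2
    · rw [coeff_C_mul_X_pow, if_pos h2]
    · rw [coeff_C_mul_X_pow, if_neg h2]
    · rw [coeff_zero]
  rw [h1]
  split_ifs with h
  · rw [Finset.sum_eq_single (⟨(⟨i, by omega⟩, ⟨j, by omega⟩), h⟩ : Idx D)]
    · simp
    · rintro ⟨⟨p1, p2⟩, hp⟩ _ hne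
      split_ifs with h2 h3
      · exact absurd (by subst h2; subst h3; rfl) hne
      · rfl
      · rfl
    · intro hcon
      exact absurd (Finset.mem_univ _) hcon
  · refine Finset.sum_eq_zero fun p _ => ?_
    split_ifs with h2 h3
    · exfalso
      have := p.2
      omega
    · rfl
    · rfl

theorem taylor_pol (D : ℕ) (v : Idx D → R) (c : R[X]) (j : ℕ) :
    (taylor c (pol D v)).coeff j = ∑ p : Idx D, C (v p) * (X ^ (p.1.1 : ℕ) *
      (((p.1.2 : ℕ).choose j : ℕ) : R[X]) * c ^ ((p.1.2 : ℕ) - j)) := by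
  unfold pol
  rw [map_sum, finsetSum_coeff]
  refine Finset.sum_congr rfl fun p _ => ?_
  rw [taylor_apply, mul_comp, C_comp, X_pow_comp, coeff_C_mul, coeff_X_add_C_pow]
  ring

theorem mulVec_eq (D r m : ℕ) (a : R) (c : R[X]) (v : Idx D → R) (q : Cnd r m) :
    (mat D r m a c).mulVec v q = (taylor a ((taylor c (pol D v)).coeff q.1)).coeff q.2 := by
  rw [taylor_pol, map_sum, finsetSum_coeff]
  show ∑ p, mat D r m a c q p * v p = _
  refine Finset.sum_congr rfl fun p _ => ?_
  unfold mat
  rw [← smul_eq_C_mul, map_smul, coeff_smul, smul_eq_mul, mul_comm]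

theorem dvd_iff_taylor (a : R) (g : R[X]) (N : ℕ) :
    (X - C a) ^ N ∣ g ↔ ∀ l < N, (taylor a g).coeff l = 0 := by
  rw [← X_pow_dvd_iff, X_sub_C_pow_dvd_iff, taylor_apply]

theorem pm : St_PM := by
  intro R _ D r m a c
  refine ⟨fun v q => mulVec_eq D r m a c v q, fun v => ?_, fun v => ?_, fun f hf => ?_,
    fun v hv => ?_, fun S _ φ => ?_⟩
  · constructor
    · intro h j hj
      rw [dvd_iff_taylor]
      intro l hl
      have h1 := congrFun h (⟨⟨j, hj⟩, ⟨l, hl⟩⟩ : Cnd r m)
      rw [mulVec_eq] at h1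
      exact h1
    · intro h
      funext q
      obtain ⟨j, l⟩ := q
      rw [mulVec_eq]
      exact (dvd_iff_taylor a _ _).1 (h j j.2) l l.2
  · rw [mem_V]
    intro j
    rw [mem_degreeLT, degree_lt_iff_coeff_zero]
    intro i hi
    rw [coeff_pol, dif_neg]
    omega
  · ext j i
    rw [coeff_pol]
    split_ifs with h
    · rfl
    · have h1 := hf j
      rw [mem_degreeLT, degree_lt_iff_coeff_zero] at h1
      exact h1 i (by omega)
  · funext p
    have h1 := coeff_pol D v p.1.1 p.1.2
    rw [hv, coeff_zero, coeff_zero, dif_pos p.2] at h1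
    exact h1.symm
  · ext q p
    rw [Matrix.map_apply]
    unfold mat
    rw [← coeff_map, map_taylor]
    simp only [Polynomial.map_mul, Polynomial.map_pow, Polynomial.map_X, Polynomial.map_natCast]

end Pool.Agent.L0h66.FP
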